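import Pool.Agent.N282.GC.AllX

/-!
# The Good–Churchhouse normal law for almost all twists by characters and by `n^(it)`

For `ε, η > 0` there are `c > 0` and `X₀` such that, when `q` is `1` or a prime power, `T ≥ 1` and `q T` is large, for
all pairs `(χ, t)`, `χ` a character modulo `q` and `0 ≤ t ≤ T`, outside a set of measure at most `η φ(q) T`, all `X`
with `X₀ ≤ X ≤ (q T)^c` and all `H` with `X^ε ≤ H ≤ X^(1-ε)`, the complex random variable

`(∑_{|n-x| < H/2} μ(n) χ(n) n^(it)) / √(ρ_q H)`, `x` uniform in `[X, 2X]`,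

is close to the standard complex normal law: in every direction of the plane the distribution function of its
projection is uniformly within `η` of that of the normal law of variance `1/2`. Here `ρ_q` is the density of the
squarefree integers prime to `q`. There is no hypothesis.

Proof: a bound for the number of solutions of `n₁ ⋯ n_k m'₁ ⋯ m'_l = m₁ ⋯ m_l n'₁ ⋯ n'_k` with the `n_i`, `m_i` in one
and the `n'_i`, `m'_i` in another short interval, `m` not a rearrangement of `n`; mean square over `(χ, t)` of the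
unbalanced part of every mixed moment; method of moments; a net of `(X, H)` and chaining in `H`. Parts were
formalised by helpers 130, 547, 763, 322, 327 (counting), 297, 8, 433, 592, 169, 588, 935, 901, 747, 291, 187.
-/

set_option autoImplicit false

open MeasureTheory Filter Topology Classical

namespace Pool.Agent.Results.MP_4f18df_nt.ComplexTwists

/-- `μ(n) χ(n) n^(it)`. -/
noncomputable def f {q : ℕ} (χ : DirichletCharacter ℂ q) (t : ℝ) (n : ℕ) : ℂ :=
  ((ArithmeticFunction.moebius n : ℤ) : ℂ) * χ n * Complex.exp (Complex.I * t * Real.log n)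

/-- The density `(6/π²) ∏_{p ∣ q} p/(p+1)` of the squarefree integers prime to `q`. -/
noncomputable def ρ (q : ℕ) : ℝ := 6 / Real.pi ^ 2 * ∏ p ∈ q.primeFactors, (p : ℝ) / (p + 1)

/-- The proportion of the `x` in `[X, 2X]` for which the real part of `u S` is at most `s √(ρ_q H / 2)`, `S` the sum
of `μ(n) χ(n) n^(it)` over the integers `n` with `|n - x| < H/2`. -/
noncomputable def law {q : ℕ} (χ : DirichletCharacter ℂ q) (t : ℝ) (u : ℂ) (X H s : ℝ) : ℝ :=
  (volume {x : ℝ | x ∈ Set.Icc X (2 * X) ∧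
    (u * ∑ n ∈ (Finset.range (⌈x + H⌉₊ + 1)).filter (fun n : ℕ => |(n : ℝ) - x| < H / 2), f χ t n).re
      / Real.sqrt (ρ q / 2 * H) ≤ s}).toReal / X

/-- The distribution function of the standard normal law. -/
noncomputable def normal (s : ℝ) : ℝ := ProbabilityTheory.cdf (ProbabilityTheory.gaussianReal 0 1) s

/-- For all `ε, η > 0` there are `c > 0`, `X₀`, `D₀` such that, if `q` is `1` or a prime power, `T ≥ 1` and
`q T ≥ D₀`, the measures of the sets of those `t` in `[0, T]` for which `|law χ t u X H s - normal s| ≤ η` fails for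
some `X`, `H` with `X₀ ≤ X ≤ (q T)^c` and `X^ε ≤ H ≤ X^(1-ε)`, some `u` with `|u| = 1` and some real `s`, summed over
the characters `χ` modulo `q`, are together at most `η φ(q) T`. -/
theorem result (ε η : ℝ) (hε : 0 < ε) (hη : 0 < η) : ∃ c X₀ D₀ : ℝ, 0 < c ∧ ∀ (q : ℕ) (_ : NeZero q) (T : ℝ),
    (q = 1 ∨ IsPrimePow q) → 1 ≤ T → D₀ ≤ q * T →
      ∑ χ : DirichletCharacter ℂ q, (volume {t : ℝ | t ∈ Set.Icc 0 T ∧ ¬ ∀ X H : ℝ, X₀ ≤ X → X ≤ (q * T) ^ c →
        X ^ ε ≤ H → H ≤ X ^ (1 - ε) → ∀ u : ℂ, ‖u‖ = 1 → ∀ s : ℝ, |law χ t u X H s - normal s| ≤ η}).toReal ≤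
        η * (q.totient * T) := by
  have key : ∀ ε' : ℝ, 0 < ε' → ε' ≤ ε → ε' < 1 / 2 → ∃ c X₀ D₀ : ℝ, 0 < c ∧ ∀ (q : ℕ) (_ : NeZero q) (T : ℝ),
    (q = 1 ∨ IsPrimePow q) → 1 ≤ T → D₀ ≤ q * T →
      ∑ χ : DirichletCharacter ℂ q, (volume {t : ℝ | t ∈ Set.Icc 0 T ∧ ¬ ∀ X H : ℝ, X₀ ≤ X → X ≤ (q * T) ^ c →
        X ^ ε ≤ H → H ≤ X ^ (1 - ε) → ∀ u : ℂ, ‖u‖ = 1 → ∀ s : ℝ, |law χ t u X H s - normal s| ≤ η}).toReal ≤
        η * (q.totient * T) := by
    intro ε' h1 h2 h3
    obtain ⟨c, X₀, D₀, hc, h⟩ := Pool.Agent.N282.GC.FX_cdf Pool.Agent.N282.GC.a_XCN Pool.Agent.N282.GC.a_TRC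
      ε' η h1 h3 hη
    refine ⟨c, max X₀ 1, D₀, hc, fun q hq T hqp hT hD => le_trans ?_ (h q hq T hqp hT hD)⟩
    refine Finset.sum_le_sum fun χ _ => ENNReal.toReal_mono ?_ (measure_mono ?_)
    · refine ne_top_of_le_ne_top ?_ (measure_mono (t := Set.Icc (0 : ℝ) T) fun t ht => ht.1)
      rw [Real.volume_Icc]
      exact ENNReal.ofReal_ne_top
    · rintro t ⟨ht, ht2⟩
      refine ⟨ht, fun h' => ht2 fun X H a1 a2 a3 a4 => ?_⟩
      have hX1 : 1 ≤ X := (le_max_right _ _).trans a1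
      exact h' X H ((le_max_left _ _).trans a1) a2
        ((Real.rpow_le_rpow_of_exponent_le hX1 h2).trans a3)
        (a4.trans (Real.rpow_le_rpow_of_exponent_le hX1 (by linarith)))
  exact key (min ε (1 / 4)) (lt_min hε (by norm_num)) (min_le_left _ _)
    (lt_of_le_of_lt (min_le_right _ _) (by norm_num))

end Pool.Agent.Results.MP_4f18df_nt.ComplexTwists
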