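import Pool.Agent.N699.GL.Thm

/-!
# The normal law for the sums of the Moebius function over `H` points from explicit sets of polylogarithmic size

For `H → ∞`, `H ≤ log ^ A N`, and for almost all vectors `(v_1, ..., v_H)` of independent shifts, each with a law whose
Fourier transform is at most `1 / log ^ W N` off the arc at zero (in particular for almost all vectors of shifts from
explicit sets of `log ^ C N` integers), the sum `μ(x + v_1) + ... + μ(x + v_H)`, divided by `sqrt (H / ζ(2))`, has
asymptotically the standard normal law for `x` uniform in `1, ..., N`.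
-/

set_option autoImplicit false

namespace Pool.Agent.Results.MP_4f18df_nt.RandomPoints

open Finset

/-- The proportion of the `1 ≤ x ≤ N` with `(μ(x + v_1) + ... + μ(x + v_H)) / sqrt (H / ζ(2)) ≤ t`, where `ζ(2) = π² / 6`. -/
noncomputable def distribution {H : ℕ} (N : ℕ) (v : Fin H → ℕ) (t : ℝ) : ℝ :=
  (((Icc 1 N).filter fun x =>
    (∑ i, ((ArithmeticFunction.moebius (x + v i) : ℤ) : ℝ)) / Real.sqrt (H / (Real.pi ^ 2 / 6)) ≤ t).card : ℝ) / N

/-- The distribution function of the standard normal law. -/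
noncomputable def normal (t : ℝ) : ℝ := (Real.sqrt (2 * Real.pi))⁻¹ * ∫ u in Set.Iic t, Real.exp (-(u ^ 2) / 2)

/-- `p` is a probability measure on the integers `0, ..., B N`, and its Fourier transform `∑ p v e(v α)` is at most
`1 / log ^ W N` in absolute value at all the real frequencies `α` at a distance of more than `log ^ E N / N` from the
integers. -/
structure SmallOff (B E W N : ℕ) (p : ℕ → ℝ) : Prop where
  nonneg : ∀ v ∈ range (B * N + 1), 0 ≤ p v
  sum : ∑ v ∈ range (B * N + 1), p v = 1
  small : ∀ α : ℝ, (∀ k : ℤ, Real.log N ^ E / N < |α - k|) →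
    ‖∑ v ∈ range (B * N + 1), (p v : ℂ) * Complex.exp (2 * Real.pi * Complex.I * ((v * α : ℝ) : ℂ))‖ ≤ 1 / Real.log N ^ W

/-- The triples `(b, u, i)`, where `b ≤ Q` is a prime, `0 ≤ u < b` and `0 ≤ i < Q`. -/
def triples (Q : ℕ) : Finset (ℕ × ℕ × ℕ) := (range (Q + 1) ×ˢ range Q ×ˢ range Q).filter fun t => t.1.Prime ∧ t.2.1 < t.1

/-- The integer `u ⌊M / b⌋ + i` of the triple `(b, u, i)`: it is near to the rational multiple `(u / b) M` of `M`. -/
def point (M : ℕ) (t : ℕ × ℕ × ℕ) : ℕ := t.2.1 * (M / t.1) + t.2.2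

lemma bridge {H : ℕ} (hH : 1 ≤ H) (N : ℕ) (v : Fin H → ℕ) (t : ℝ) :
    distribution N v t = (((Icc 1 N).filter fun x => (∑ i, Pool.Agent.N699.GC.mu (x + v i)) ≤ t * Pool.Agent.N699.GL.nrm H).card : ℝ) / N := by
  unfold distribution
  have hH0 : (0 : ℝ) < H := by exact_mod_cast hH
  have h1 : Real.sqrt (H / (Real.pi ^ 2 / 6)) = Pool.Agent.N699.GL.nrm H := by
    unfold Pool.Agent.N699.GL.nrm
    congr 1
    field_simp
  have h2 : 0 < Pool.Agent.N699.GL.nrm H := by
    unfold Pool.Agent.N699.GL.nrm
    exact Real.sqrt_pos.2 (by positivity)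
  rw [h1]
  congr 3
  apply filter_congr
  intro x _
  rw [div_le_iff₀ h2]
  rfl

open Classical in
/-- Let `A`, `B ≥ 1`, a real number `t` and `ε > 0` be fixed.

(1) There is a `W` such that for every `E` there are `H₀` and `N₀` such that for all `N ≥ N₀` and `H₀ ≤ H ≤ log ^ A N`:
if `v_1, ..., v_H` are independent random integers whose laws are any probability measures on `0, ..., B N` with a
Fourier transform of at most `1 / log ^ W N` at a distance of more than `log ^ E N / N` from the integers, then with a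
probability of at least `1 - ε` the proportion of the `x ≤ N` with
`(μ(x + v_1) + ... + μ(x + v_H)) / sqrt (H / ζ(2)) ≤ t` is the value at `t` of the distribution function of the standard
normal law, with an error of at most `ε`.

(2) There are `C`, `H₀` and `N₀` such that for all `N ≥ N₀`, `H₀ ≤ H ≤ log ^ A N`, all `Q i` with `log ^ C N ≤ Q i ≤ N`,
all `M i` with `N / B ≤ M i ≤ B N` and all `c i ≤ B N` this holds for the vectors of shifts
`v i = c i + u ⌊M i / b⌋ + k` (`b ≤ Q i` prime, `0 ≤ u < b`, `0 ≤ k < Q i`), with the exception of a proportion of at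
most `ε` of the vectors of triples `(b, u, k)`. (For `Q i = log ^ C N` there are at most `log ^ (3 C) N` triples.) -/
theorem result (A B : ℕ) (hB : 1 ≤ B) (t ε : ℝ) (hε : 0 < ε) :
    (∃ W : ℕ, ∀ E : ℕ, ∃ H₀ N₀ : ℕ, ∀ N H : ℕ, N₀ ≤ N → H₀ ≤ H → (H : ℝ) ≤ Real.log N ^ A →
      ∀ p : Fin H → ℕ → ℝ, (∀ i, SmallOff B E W N (p i)) →
        ∑ v ∈ Fintype.piFinset (fun _ : Fin H => range (B * N + 1)),
          (if |distribution N v t - normal t| ≤ ε then 0 else ∏ i, p i (v i)) ≤ ε) ∧
    (∃ C H₀ N₀ : ℕ, ∀ N H : ℕ, N₀ ≤ N → H₀ ≤ H → (H : ℝ) ≤ Real.log N ^ A →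
      ∀ Q M c : Fin H → ℕ, (∀ i, Real.log N ^ C ≤ Q i ∧ Q i ≤ N ∧ N ≤ B * M i ∧ M i ≤ B * N ∧ c i ≤ B * N) →
        (((Fintype.piFinset fun i => triples (Q i)).filter fun τ =>
          ¬ |distribution N (fun i => c i + point (M i) (τ i)) t - normal t| ≤ ε).card : ℝ) ≤
        ε * ((Fintype.piFinset fun i => triples (Q i)).card : ℝ)) := by
  constructor
  · obtain ⟨W, hW⟩ := Pool.Agent.N699.GL.gauss_law A B hB t ε hε
    refine ⟨W, fun E => ?_⟩
    obtain ⟨H0, N1, h1⟩ := hW E
    refine ⟨H0 + 1, N1, fun N H hN hH hHA p hp => ?_⟩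
    have h2 := h1 N hN H (by omega) hHA (fun _ => range (B * N + 1)) p (fun i => ⟨(hp i).nonneg, (hp i).sum, fun v hv => by
      rw [mem_range] at hv
      omega, (hp i).small⟩)
    refine le_trans (le_of_eq ?_) h2
    apply sum_congr rfl
    intro v _
    rw [bridge (by omega) N v t]
    rfl
  · obtain ⟨W, hW⟩ := Pool.Agent.N699.GL.gauss_law A (B + 1 + B) (by omega) t ε hε
    obtain ⟨H0, N1, h1⟩ := hW (W + 1)
    obtain ⟨N2, h2⟩ := Pool.Agent.N699.GC.prime_lawz B W hB
    refine ⟨2 * W + 5, H0 + 1, N1 + N2 + 3, fun N H hN hH hHA Q M c hQM => ?_⟩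
    have h3 := h1 N (by omega) H (by omega) hHA
      (fun i => (Pool.Agent.N699.RP.pts (Q i)).image fun s => c i + Pool.Agent.N699.RP.pt (M i) s)
      (fun i => Pool.Agent.N699.RP.push (Pool.Agent.N699.RP.pts (Q i)) (fun _ => 1 / ((Pool.Agent.N699.RP.pts (Q i)).card : ℝ))
        fun s => c i + Pool.Agent.N699.RP.pt (M i) s)
      (fun i => Pool.Agent.N699.GC.lz_trans (B + 1) B (W + 1) W N (Pool.Agent.N699.RP.pts (Q i))
        (fun _ => 1 / ((Pool.Agent.N699.RP.pts (Q i)).card : ℝ)) (fun _ _ => by positivity) (Pool.Agent.N699.RP.pt (M i)) (c i)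
        (hQM i).2.2.2.2 (h2 N (by omega) (M i) (hQM i).2.2.1 (hQM i).2.2.2.1 (Q i) (hQM i).1 (hQM i).2.1))
    have e := Pool.Agent.N699.RP.push_tuple (fun i => Pool.Agent.N699.RP.pts (Q i))
        (fun i _ => 1 / ((Pool.Agent.N699.RP.pts (Q i)).card : ℝ)) (fun i s => c i + Pool.Agent.N699.RP.pt (M i) s)
        (fun v => ¬ |distribution N v t - normal t| ≤ ε)
    have h' : ∑ τ ∈ Fintype.piFinset (fun i => triples (Q i)),
        (if ¬ |distribution N (fun i => c i + point (M i) (τ i)) t - normal t| ≤ ε then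
        ∏ i, 1 / ((triples (Q i)).card : ℝ) else 0) ≤ ε := by
      refine le_trans (le_of_eq ?_) ((le_of_eq e.symm).trans (le_trans (le_of_eq ?_) h3))
      · apply sum_congr rfl
        intro τ _
        by_cases hv : |distribution N (fun i => c i + point (M i) (τ i)) t - normal t| ≤ ε
        · have hv' : ¬ ¬ |distribution N (fun i => c i + Pool.Agent.N699.RP.pt (M i) (τ i)) t - normal t| ≤ ε := not_not.2 hv
          rw [if_neg (not_not.2 hv), if_neg hv']
        · have hv' : ¬ |distribution N (fun i => c i + Pool.Agent.N699.RP.pt (M i) (τ i)) t - normal t| ≤ ε := hv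
          rw [if_pos hv, if_pos hv']
          rfl
      · apply sum_congr rfl
        intro v _
        have hb := bridge (H := H) (by omega) N v t
        by_cases hv : |distribution N v t - normal t| ≤ ε
        · rw [if_neg (not_not.2 hv)]
          rw [hb] at hv
          exact (if_pos hv).symm
        · rw [if_pos hv]
          rw [hb] at hv
          exact (if_neg hv).symm
    rw [← sum_filter, sum_const, nsmul_eq_mul, prod_div_distrib, prod_const_one, mul_one_div] at h'
    have hcard : ((Fintype.piFinset fun i => triples (Q i)).card : ℝ) = ∏ i, ((triples (Q i)).card : ℝ) := by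
      rw [Fintype.card_piFinset]
      push_cast
      rfl
    rw [← hcard] at h'
    rcases Nat.eq_zero_or_pos (Fintype.piFinset fun i => triples (Q i)).card with h0 | h0
    · have h4 : ((Fintype.piFinset fun i => triples (Q i)).filter fun τ =>
          ¬ |distribution N (fun i => c i + point (M i) (τ i)) t - normal t| ≤ ε).card = 0 := by
        have := card_filter_le (Fintype.piFinset fun i => triples (Q i)) (fun τ =>
          ¬ |distribution N (fun i => c i + point (M i) (τ i)) t - normal t| ≤ ε)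
        omega
      rw [h4, h0, Nat.cast_zero, mul_zero]
    · have h0r : (0 : ℝ) < ((Fintype.piFinset fun i => triples (Q i)).card : ℝ) := by exact_mod_cast h0
      rw [div_le_iff₀ h0r] at h'
      exact h'

end Pool.Agent.Results.MP_4f18df_nt.RandomPoints
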