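import Pool.Agent.N282.GC.All

/-!
# The Good–Churchhouse normal law for almost all signs at the primes

Let `s_p` be independent random signs (each value with probability `1/2`). For almost every realisation the function
`f(n) = μ(n) ∏_{p ∣ n} s_p` satisfies the statement of Q1 literally, with `μ` replaced by `f`: for every `ε > 0` and
every function `H = H(X)` with `X^ε < H < X^(1-ε)` (also chosen after the signs) the normalised sums of `f` over the
integers `|n - x| < H/2`, `x` uniform in `[X, 2X]`, converge in distribution to the standard normal law. (The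
randomness in the limit law is only that of `x`: a quenched central limit theorem.)

Proof: a bound for the number of solutions of `n₁ ⋯ n_k m₁ ⋯ m_k = □` with the `n_i` in one and the `m_i` in another
short interval, the values of the `n_i` not paired (choose the integers one after the other, starting with two that
have a large common divisor); mean square of the unpaired part of every moment; Borel–Cantelli along a net of
`(X, H)`; method of moments; chaining in `H`. Parts were formalised by helpers 130, 547, 763 (counting), 277, 494,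
588, 935, 901, 747, 291, 187, 300, 225.
-/

set_option autoImplicit false

open MeasureTheory Filter Topology

namespace Pool.Agent.Results.MP_4f18df_nt.RandomSigns

/-- The function `f(n) = μ(n) ∏_{p ∣ n} s_p`. -/
noncomputable def twist (s : ℕ → ℝ) (n : ℕ) : ℝ :=
  ((ArithmeticFunction.moebius n : ℤ) : ℝ) * ∏ p ∈ n.primeFactors, s p

/-- The statement of Q1 for a function `f` in place of the Moebius function: for every `ε > 0`, every `H(X)` with
`X^ε < H(X) < X^(1-ε)` for large `X` and every real `t`, the proportion of the `x` in `[X, 2X]` for which the sum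
of `f(n)` over `|n - x| < H/2` is at most `t √(H / ζ(2))` tends to the value of the standard normal distribution
function at `t`. -/
def NormalLaw (f : ℕ → ℝ) : Prop :=
  ∀ ε : ℝ, 0 < ε → ∀ H : ℝ → ℝ,
    (∀ᶠ X in atTop, X ^ ε < H X ∧ H X < X ^ (1 - ε)) →
    ∀ t : ℝ,
      Tendsto
        (fun X : ℝ =>
          (volume {x : ℝ | x ∈ Set.Icc X (2 * X) ∧
              (∑ n ∈ (Finset.range (⌊x + H X⌋₊ + 1)).filter (fun n : ℕ => |(n : ℝ) - x| < H X / 2), f n)
                / Real.sqrt (H X / (Real.pi ^ 2 / 6)) ≤ t}).toReal / X)
        atTop (nhds (ProbabilityTheory.cdf (ProbabilityTheory.gaussianReal 0 1) t))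

/-- For independent random signs `s_p`, almost surely `μ(n) ∏_{p ∣ n} s_p` satisfies the normal law. -/
theorem result {Ω : Type} [MeasurableSpace Ω] (P : Measure Ω) [IsProbabilityMeasure P] (s : ℕ → Ω → ℝ)
    (hm : ∀ p, Measurable (s p)) (hs : ∀ p ω, s p ω = 1 ∨ s p ω = -1)
    (h0 : ∀ p, P {ω | s p ω = 1} = 1 / 2) (hi : ProbabilityTheory.iIndepFun s P) :
    ∀ᵐ ω ∂P, NormalLaw (twist fun p => s p ω) := by
  have h1 : ∀ p, ∫ ω, s p ω ∂P = 0 := by
    intro p
    have hA : MeasurableSet {ω | s p ω = 1} := hm p (measurableSet_singleton 1)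
    have e : ∀ ω, s p ω = 2 * ({ω | s p ω = 1}.indicator (fun _ => (1 : ℝ)) ω) - 1 := by
      intro ω
      rcases hs p ω with h | h
      · rw [Set.indicator_of_mem (show ω ∈ {ω | s p ω = 1} from h), h]
        norm_num
      · rw [Set.indicator_of_notMem (show ω ∉ {ω | s p ω = 1} from fun h' : s p ω = 1 => by
          rw [h] at h'
          norm_num at h'), h]
        norm_num
    have i1 : Integrable ({ω | s p ω = 1}.indicator (fun _ => (1 : ℝ))) P :=
      (integrable_const (1 : ℝ)).indicator hA
    rw [integral_congr_ae (Eventually.of_forall e), integral_sub (i1.const_mul 2) (integrable_const 1),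
      integral_const_mul, integral_indicator hA, setIntegral_const, integral_const]
    simp [Measure.real, h0 p]
  filter_upwards [Pool.Agent.N282.GC.FIN_cdf Pool.Agent.N282.GC.a_BC Pool.Agent.N282.GC.a_TRC P s hm hs h1 hi]
    with ω hω
  intro ε hε H hH t
  refine (hω ε hε H hH t).congr' ?_
  filter_upwards [hH, eventually_ge_atTop (1 : ℝ)] with X hX hX1
  have hH0 : 0 < H X := (Real.rpow_pos_of_pos (by linarith) _).trans hX.1
  have hset : {x : ℝ | x ∈ Set.Icc X (2 * X) ∧
        Pool.Agent.N282.GC.M (Pool.Agent.N282.GC.fs fun p => s p ω) x (H X) /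
          Real.sqrt (H X / (Real.pi ^ 2 / 6)) ≤ t} =
      {x : ℝ | x ∈ Set.Icc X (2 * X) ∧
        (∑ n ∈ (Finset.range (⌊x + H X⌋₊ + 1)).filter (fun n : ℕ => |(n : ℝ) - x| < H X / 2),
          twist (fun p => s p ω) n) / Real.sqrt (H X / (Real.pi ^ 2 / 6)) ≤ t} := by
    ext x
    constructor
    · rintro ⟨h1, h2⟩
      refine ⟨h1, ?_⟩
      rw [Pool.Agent.N282.GC.FIN_win x (H X) (by linarith [h1.1]) hH0.le]
      exact h2
    · rintro ⟨h1, h2⟩
      refine ⟨h1, ?_⟩
      rw [Pool.Agent.N282.GC.FIN_win x (H X) (by linarith [h1.1]) hH0.le] at h2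
      exact h2
  rw [hset]

end Pool.Agent.Results.MP_4f18df_nt.RandomSigns
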