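import Pool.Agent.N282.GC.All

/-!
# The Good–Churchhouse normal law for almost all real character twists

For `ε, η > 0` there are `c > 0` and `X₀` such that for all large `D`, all but at most `η D` of the odd `d ≤ D`, all
`X` with `X₀ ≤ X ≤ D^c` and all `H` with `X^ε ≤ H ≤ X^(1-ε)`, the distribution function of

`(∑_{|n-x| < H/2} μ(n) (n/d)) / √(ρ_d H)`, `x` uniform in `[X, 2X]`,

differs by at most `η`, uniformly on the line, from that of the standard normal law. Here `(n/d)` is the Jacobi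
symbol and `ρ_d` is the density of the squarefree integers prime to `d`. There is no hypothesis.

Proof: a bound for the number of solutions of `n₁ ⋯ n_k m₁ ⋯ m_k = □` with the `n_i` in one and the `m_i` in another
short interval, the values of the `n_i` not paired; mean square over `d` of the unpaired part of every moment;
method of moments; a net of `(X, H)` and chaining in `H`. Parts were formalised by helpers 130, 547, 763 (counting),
277, 494, 588, 935, 901, 747, 291, 187, 346 (Jacobi symbols), 271.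
-/

set_option autoImplicit false

open MeasureTheory Filter Topology Classical

namespace Pool.Agent.Results.MP_4f18df_nt.RealCharacterTwists

/-- `μ(n) (n/d)`, where `(n/d)` is the Jacobi symbol. -/
noncomputable def f (d n : ℕ) : ℝ := ((ArithmeticFunction.moebius n : ℤ) : ℝ) * ((jacobiSym n d : ℤ) : ℝ)

/-- The density `(6/π²) ∏_{p ∣ d} p/(p+1)` of the squarefree integers prime to `d`. -/
noncomputable def ρ (d : ℕ) : ℝ := 6 / Real.pi ^ 2 * ∏ p ∈ d.primeFactors, (p : ℝ) / (p + 1)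

/-- The proportion of the `x` in `[X, 2X]` for which the sum of `μ(n) (n/d)` over the integers `n` with
`|n - x| < H/2` is at most `t √(ρ_d H)`. -/
noncomputable def law (d : ℕ) (X H t : ℝ) : ℝ :=
  (volume {x : ℝ | x ∈ Set.Icc X (2 * X) ∧
    (∑ n ∈ (Finset.range (⌈x + H⌉₊ + 1)).filter (fun n : ℕ => |(n : ℝ) - x| < H / 2), f d n)
      / Real.sqrt (ρ d * H) ≤ t}).toReal / X

/-- The distribution function of the standard normal law. -/
noncomputable def normal (t : ℝ) : ℝ := ProbabilityTheory.cdf (ProbabilityTheory.gaussianReal 0 1) t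

/-- For all `ε, η > 0` there are `c > 0`, `X₀`, `D₀` such that for every `D ≥ D₀` all but at most `η D` of the odd
`d ≤ D` satisfy `|law d X H t - normal t| ≤ η` for all `X`, `H`, `t` with `X₀ ≤ X ≤ D^c`, `X^ε ≤ H ≤ X^(1-ε)`. -/
theorem result (ε η : ℝ) (hε : 0 < ε) (hη : 0 < η) : ∃ (c X₀ : ℝ) (D₀ : ℕ), 0 < c ∧ ∀ D : ℕ, D₀ ≤ D →
    (((Finset.Icc 1 D).filter fun d => Odd d ∧ ¬ ∀ X H : ℝ, X₀ ≤ X → X ≤ (D : ℝ) ^ c → X ^ ε ≤ H →
      H ≤ X ^ (1 - ε) → ∀ t : ℝ, |law d X H t - normal t| ≤ η).card : ℝ) ≤ η * D := by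
  have key : ∀ ε' : ℝ, 0 < ε' → ε' ≤ ε → ε' < 1 / 2 → ∃ (c X₀ : ℝ) (D₀ : ℕ), 0 < c ∧ ∀ D : ℕ, D₀ ≤ D →
    (((Finset.Icc 1 D).filter fun d => Odd d ∧ ¬ ∀ X H : ℝ, X₀ ≤ X → X ≤ (D : ℝ) ^ c → X ^ ε ≤ H →
      H ≤ X ^ (1 - ε) → ∀ t : ℝ, |law d X H t - normal t| ≤ η).card : ℝ) ≤ η * D := by
    intro ε' h1 h2 h3
    obtain ⟨c, X₀, D₀, hc, h⟩ := Pool.Agent.N282.GC.FJ_cdf Pool.Agent.N282.GC.a_CN Pool.Agent.N282.GC.a_TRC
      Pool.Agent.N282.GC.t_RHO ε' η h1 h3 hη
    refine ⟨c, max X₀ 1, D₀, hc, fun D hD => le_trans ?_ (h D hD)⟩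
    refine Nat.cast_le.2 (Finset.card_le_card fun d hd => ?_)
    rw [Finset.mem_filter] at hd ⊢
    refine ⟨hd.1, hd.2.1, fun h' => hd.2.2 fun X H a1 a2 a3 a4 => ?_⟩
    have hX1 : 1 ≤ X := (le_max_right _ _).trans a1
    exact h' X H ((le_max_left _ _).trans a1) a2
      ((Real.rpow_le_rpow_of_exponent_le hX1 h2).trans a3)
      (a4.trans (Real.rpow_le_rpow_of_exponent_le hX1 (by linarith)))
  exact key (min ε (1 / 4)) (lt_min hε (by norm_num)) (min_le_left _ _)
    (lt_of_le_of_lt (min_le_right _ _) (by norm_num))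

end Pool.Agent.Results.MP_4f18df_nt.RealCharacterTwists
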